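import Pool.Agent.W972.SG.Lower
import Pool.Agent.W972.SG.Upper

/-!
# The spectacles networks do not minimize the normalized search value (disproof of the
conjecture of Alpern and Asic, MP_95edb1_lc, Q1)

The definitions are in `Pool.Agent.Helper569.NetDefs` (networks as metric spaces) and in
`Pool.Agent.W972.SG.Defs` (pure and mixed strategies, capture time, `lowerValue` = maximin,
`upperValue` = minimax, the spectacles network).

The witness is the network `Pool.Agent.W972.SG.necklace`: a chain of nodes with the coordinates
`0, 1 - b, 1 + b, 2, 3, 4, 5 - b, 5 + b, 6` (`b = 1/1000`), consecutive nodes being joined by two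
arcs, except for the two bridges `[1 - b, 1 + b]` and `[5 - b, 5 + b]`; its length is `11.996`.  The
searcher starts at the coordinate `3`, sweeps to and fro (first direction at random, a random lane
in each unit step), and when it arrives at `1` from `2` (or at `5` from `4`) it waits there, in the
middle of the bridge, for two units of time with the probability `1/12`.  Its expected capture time
is at most `10.97` against every hider path (of any speed).  In the spectacles network the hider
stays in one of the two loops, chosen at random, and uses in each period one of four options (go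
round, either way; go nearly to the far point and back, in either lane), with a small random lead:
the expected capture time is at least `1.831` for every `δ`, against every non-loitering searcher.
Finally `10.97 / 11.996 < 0.9146 < 0.915 ≤ liminf 1.831 / (2 + δ)`.
-/

namespace Pool.Agent.Results.MP_95edb1_lc.SpectaclesNotOptimal

open MeasureTheory Set Filter Topology
open scoped ENNReal NNReal
open Pool.Agent.Helper569.Net
open Pool.Agent.W972.SG

/-- `σ = liminf_{δ → 0+} v(S_δ) / (2 + δ)`, where `v` is the maximin value. -/
noncomputable def sigma (w : ℝ≥0) : ℝ≥0∞ :=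
  liminf (fun δ : ℝ => if h : 0 < δ then
    lowerValue (spectacles δ h) (spectaclesMid δ h) w / ENNReal.ofReal (2 + δ) else 0) (𝓝[>] 0)

theorem sigma_ge {w : ℝ≥0} (hw : 1 ≤ w) : ENNReal.ofReal 0.915 ≤ sigma w := by
  unfold sigma
  refine le_liminf_of_le (by isBoundedDefault) ?_
  have h1 : ∀ᶠ δ : ℝ in 𝓝[>] 0, δ ∈ Ioo (0 : ℝ) (1 / 1000) :=
    Ioo_mem_nhdsGT (by norm_num)
  filter_upwards [h1] with δ hδ
  rw [dif_pos hδ.1]
  rw [ENNReal.le_div_iff_mul_le (Or.inl (by
    rw [Ne, ENNReal.ofReal_eq_zero, not_le]; linarith [hδ.1])) (Or.inl ENNReal.ofReal_ne_top)]
  refine le_trans ?_ (lower_bound δ hδ.1 hw)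
  rw [← ENNReal.ofReal_mul (by norm_num)]
  refine ENNReal.ofReal_le_ofReal ?_
  have := hδ.2
  norm_num
  linarith

theorem ratio_le (w : ℝ≥0) :
    upperValue necklace start w / ENNReal.ofReal (totalLength necklace) ≤
      ENNReal.ofReal 0.9146 := by
  rw [totalLength_necklace]
  refine ENNReal.div_le_of_le_mul ?_
  rw [← ENNReal.ofReal_mul (by norm_num)]
  refine (upper_bound w).trans (ENNReal.ofReal_le_ofReal ?_)
  norm_num

/-- There are a network `N` and a point `O` of `N` such that for all `w ≥ 1` the normalized value
`v(N,O) / μ(N)` is less than `σ`.  Here `v(N,O)` is even the minimax value, and `σ` is defined with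
the maximin values of the spectacles networks (the maximin value is always at most the minimax
value: `Pool.Agent.W972.SG.lowerValue_le_upperValue`). -/
theorem result :
    ∃ (N : Network) (O : N.Q), ∀ w : ℝ≥0, 1 ≤ w →
      upperValue N O w / ENNReal.ofReal (totalLength N) < sigma w := by
  refine ⟨necklace, start, fun w hw => ?_⟩
  refine (ratio_le w).trans_lt (lt_of_lt_of_le ?_ (sigma_ge hw))
  exact (ENNReal.ofReal_lt_ofReal_iff (by norm_num)).2 (by norm_num)

end Pool.Agent.Results.MP_95edb1_lc.SpectaclesNotOptimal
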